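import Pool.Agent.N355.FP.Main

/-!
# The power gap
-/

set_option autoImplicit false

namespace Pool.Agent.N355.FP

open Pool.Agent.TH630

theorem prod_succ_div (n : ℕ) :
    ∏ k ∈ Finset.Ico 1 (n + 1), (((k : ℝ) + 1) / k) = (n : ℝ) + 1 := by
  induction n with
  | zero => simp
  | succ n ih =>
    rw [Finset.prod_Ico_succ_top (by omega), ih]
    push_cast
    field_simp

/-- from a lower bound of the product of the exponents to one exponent -/
theorem gap_of_prod {n : ℕ} (hn : 1 ≤ n) (F : ℕ → ℝ → Prop) (q : ℝ) (hq : (n : ℝ) < q)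
    (h : ∀ α : ℕ → ℝ, (∀ k, 1 ≤ k → k + 1 ≤ n → 1 ≤ α k) →
      (∀ k, 1 ≤ k → k + 1 ≤ n → F k (α k)) → q ≤ ∏ k ∈ Finset.Ico 1 n, α k) :
    ∃ k, 1 ≤ k ∧ k + 1 ≤ n ∧ ∀ β : ℝ, 1 ≤ β → β ^ (n - 1) < q / n →
      ¬ F k (β * (((k : ℝ) + 1) / k)) := by
  classical
  by_contra hcon
  push Not at hcon
  have hn0 : (0 : ℝ) < n := by exact_mod_cast hn
  have hc : ∀ k : ℕ, ∃ β : ℝ, 1 ≤ β ∧ (1 ≤ k → k + 1 ≤ n → β ^ (n - 1) < q / n ∧
      F k (β * (((k : ℝ) + 1) / k))) := by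
    intro k
    by_cases hk : 1 ≤ k ∧ k + 1 ≤ n
    · obtain ⟨β, h1, h2, h3⟩ := hcon k hk.1 hk.2
      exact ⟨β, h1, fun _ _ => ⟨h2, h3⟩⟩
    · exact ⟨1, le_rfl, fun h1 h2 => absurd ⟨h1, h2⟩ hk⟩
  choose β hβ1 hβ using hc
  have hone : ∀ k : ℕ, 1 ≤ k → (1 : ℝ) ≤ ((k : ℝ) + 1) / k := by
    intro k hk
    have hk0 : (0 : ℝ) < k := by exact_mod_cast hk
    rw [le_div_iff₀ hk0]
    linarith
  have h1 := h (fun k => β k * (((k : ℝ) + 1) / k)) (fun k h1 h2 => by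
      have e1 := hβ1 k
      have e2 := hone k h1
      nlinarith) (fun k h1 h2 => (hβ k h1 h2).2)
  rw [Finset.prod_mul_distrib] at h1
  obtain ⟨m, rfl⟩ : ∃ m, n = m + 1 := ⟨n - 1, by omega⟩
  rw [prod_succ_div] at h1
  set γ : ℝ := ∏ k ∈ Finset.Ico 1 (m + 1), β k with hγ
  have hγ0 : 0 ≤ γ := Finset.prod_nonneg fun k _ => by linarith [hβ1 k]
  have hqn : (1 : ℝ) < q / ((m + 1 : ℕ) : ℝ) := by
    rw [lt_div_iff₀ hn0, one_mul]
    exact hq
  have h2 : γ < q / ((m + 1 : ℕ) : ℝ) := by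
    rcases Nat.eq_zero_or_pos m with hm | hm
    · subst hm
      have : γ = 1 := by simp [hγ]
      rw [this]
      exact hqn
    · have h3 : γ ^ m < (q / ((m + 1 : ℕ) : ℝ)) ^ m := by
        rw [hγ, ← Finset.prod_pow]
        have h4 : ∏ k ∈ Finset.Ico 1 (m + 1), β k ^ m <
            ∏ _k ∈ Finset.Ico 1 (m + 1), q / ((m + 1 : ℕ) : ℝ) := by
          apply Finset.prod_lt_prod_of_nonempty
          · intro k _
            have := hβ1 k
            positivity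
          · intro k hk
            obtain ⟨a, b⟩ := Finset.mem_Ico.1 hk
            have := (hβ k a (by omega)).1
            simpa using this
          · exact ⟨1, Finset.mem_Ico.2 ⟨le_rfl, by omega⟩⟩
        rwa [Finset.prod_const, Nat.card_Ico, Nat.add_sub_cancel] at h4
      exact lt_of_pow_lt_pow_left₀ m (by positivity) h3
  rw [lt_div_iff₀ hn0] at h2
  push_cast at h2
  linarith

end Pool.Agent.N355.FP
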