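import Pool.Agent.N355.FP.Phi
import Pool.Agent.TH630.Fill.Final

/-!
# The product of the filling exponents of a non-abelian nilpotent group
-/

set_option autoImplicit false

open MeasureTheory MvPolynomial
open scoped ENNReal NNReal Topology

namespace Pool.Agent.N355.FP

open Pool.Agent.TH630

variable {n : ℕ}

/-- power functions of negative exponent are eventually small -/
theorem exists_small (C0 ε e : ℝ) (hε : 0 < ε) (he : e < 0) :
    ∃ r0 : ℝ, 1 ≤ r0 ∧ ∀ ρ : ℝ, r0 ≤ ρ → C0 * ρ ^ e ≤ ε := by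
  have h1 : Filter.Tendsto (fun ρ : ℝ => C0 * ρ ^ e) Filter.atTop (𝓝 (C0 * 0)) := by
    have := (tendsto_rpow_neg_atTop (y := -e) (by linarith)).const_mul C0
    simpa using this
  rw [mul_zero] at h1
  obtain ⟨r, hr⟩ := Filter.eventually_atTop.1 (h1.eventually (gt_mem_nhds hε))
  exact ⟨max 1 r, le_max_left _ _, fun ρ hρ => (hr ρ ((le_max_right _ _).trans hρ)).le⟩

theorem prod_ge_aux {m : ℕ} (G : NilLaw (m + 1)) (hG : ∃ x y, G.mul x y ≠ G.mul y x)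
    (B : Matrix (Fin (m + 1)) (Fin (m + 1)) ℝ) (hB : B.PosDef) {α : ℕ → ℝ}
    (hα : ∀ k, 1 ≤ α k) (hFV : ∀ j, j + 2 ≤ m + 1 → FVLe G B (j + 1) (α (j + 1))) :
    (m : ℝ) + 2 ≤ mu α (m + 1) := by
  by_contra hcon
  push Not at hcon
  obtain ⟨D⟩ := exists_Distorted G hG
  obtain ⟨Q, hQ⟩ := exists_barPoly G
  have hQ' : IsVolPoly G Q := hQ
  obtain ⟨C2, hC2⟩ := G.exists_frame_bound
  have hC2' : FrameBound G C2 := hC2
  obtain ⟨j0, hj0⟩ : ∃ j0, D.Z j0 ≠ 0 := by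
    by_contra h
    push Not at h
    exact D.hZ (funext h)
  obtain ⟨K3, hK30, hK3⟩ := D.nrm_le_of_Nr 3 (by norm_num)
  obtain ⟨K4, hK40, hK4⟩ := D.nrm_le_of_Nr 4 (by norm_num)
  obtain ⟨Cg, d, hpoly⟩ := G.vg_poly
  obtain ⟨N, hN, hdoub⟩ := exists_doubling G.vg G.vg_pos Cg d hpoly (max 1 (2 * K3))
    (le_max_left _ _)
  obtain ⟨A, hA, hcoch⟩ := exists_cochains G B hB hα hFV K4 hK40.le
  set c0 : ℝ := (m + 1).factorial * (volume (corner (m + 1))).toReal with hc0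
  have hc0pos : 0 < c0 := by
    have h1 : 0 < (volume (corner (m + 1))).toReal :=
      ENNReal.toReal_pos (volume_corner_pos _).ne' (volume_corner_lt_top _).ne
    positivity
  set C0 : ℝ := N ^ (m + 2) * A * C3 m C2 N (D.Z j0) with hC0
  set e : ℝ := mu α (m + 1) - (m + 2) with he
  obtain ⟨r0, hr01, hr0⟩ := exists_small C0 (c0 / 2) e (by positivity) (by rw [he]; linarith)
  obtain ⟨r, hr, hr2⟩ := hdoub r0
  set ρ : ℝ := 2 * r with hρdef
  have hρ1 : 1 ≤ ρ := by linarith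
  have hρ0 : 0 < ρ := by linarith
  set A' : ℝ := A * ρ ^ (mu α (m + 1) - (m + 1)) with hA'
  have hA'0 : 0 < A' := by positivity
  have hAρ : A' * ρ ^ (m + 1) = A * ρ ^ mu α (m + 1) := by
    rw [hA', mul_assoc, ← Real.rpow_natCast ρ (m + 1), ← Real.rpow_add hρ0]
    congr 2
    push_cast
    ring
  have hρC : N ^ (m + 2) * A' * C3 m C2 N (D.Z j0) / ρ ≤ c0 / 2 := by
    have h1 := hr0 ρ (by linarith)
    have h2 : N ^ (m + 2) * A' * C3 m C2 N (D.Z j0) / ρ = C0 * ρ ^ e := by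
      have h3 : ρ ^ (mu α (m + 1) - (m + 1)) = ρ ^ e * ρ := by
        conv_rhs => rw [← Real.rpow_one ρ, ← Real.rpow_mul hρ0.le, one_mul, ← Real.rpow_add hρ0]
        congr 1
        rw [he]
        ring
      rw [hA', h3, hC0]
      field_simp
    rw [h2]
    exact h1
  have hdbl : G.vg (K3 * ρ) ≤ N * G.vg (ρ / 2) := by
    have h1 : ρ / 2 = r := by rw [hρdef]; ring
    rw [h1]
    refine le_trans (G.vg_mono ?_) hr2
    have h2 : 2 * K3 ≤ max 1 (2 * K3) := le_max_right _ _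
    rw [hρdef]
    nlinarith
  obtain ⟨C, hC, F, h, hF, hh, hFh⟩ := hcoch ρ hρ1
  obtain ⟨Cc, hCc, hmain⟩ := main_ineq D hQ' hρ0 hN.le (hK4 ρ hρ1) hC2' F h hA'0.le hC.le
    (fun g hg => by rw [hAρ]; exact hF g hg) hh hFh j0 hj0 hc0 hρC
  obtain ⟨R, hR, hslow⟩ := exists_slow G.vg G.vg_pos Cg d hpoly (c0 / (4 * Cc)) (by positivity) 1
  obtain ⟨ι, hι, ⟨P⟩⟩ := exists_Pou D hρ1 hN (hK3 ρ hρ1) hdbl R
  have h1 := hmain R ι hι P
  have h2 : 0 < G.vg R := G.vg_pos R (by linarith)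
  have h3 : Cc * G.vg (R + 2) ≤ Cc * ((1 + c0 / (4 * Cc)) * G.vg R) := by gcongr
  have h4 : Cc * ((1 + c0 / (4 * Cc)) * G.vg R) = (Cc + c0 / 4) * G.vg R := by
    field_simp
  rw [h4] at h3
  have h5 := h1.trans h3
  have h6 : Cc + c0 / 2 ≤ Cc + c0 / 4 := le_of_mul_le_mul_right h5 h2
  linarith

/-- If `FV^(k+1)` grows at most like `ℓ ^ (α k)` for `1 ≤ k ≤ n - 1` then the product of the
exponents is at least `n + 1`. -/
theorem prod_ge (G : NilLaw n) (hG : ∃ x y, G.mul x y ≠ G.mul y x)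
    (B : Matrix (Fin n) (Fin n) ℝ) (hB : B.PosDef) (α : ℕ → ℝ)
    (hα : ∀ k, 1 ≤ k → k + 1 ≤ n → 1 ≤ α k)
    (hFV : ∀ k, 1 ≤ k → k + 1 ≤ n → FVLe G B k (α k)) :
    (n : ℝ) + 1 ≤ ∏ k ∈ Finset.Ico 1 n, α k := by
  classical
  obtain ⟨m, rfl⟩ : ∃ m, n = m + 1 := by
    rcases n with _ | m
    · obtain ⟨x, y, hxy⟩ := hG
      exact absurd (Subsingleton.elim _ _) hxy
    · exact ⟨m, rfl⟩
  set β : ℕ → ℝ := fun k => if 1 ≤ k ∧ k + 1 ≤ m + 1 then α k else 1 with hβ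
  have h1 : ∀ k, 1 ≤ β k := by
    intro k
    by_cases h : 1 ≤ k ∧ k + 1 ≤ m + 1
    · simp only [hβ, if_pos h]
      exact hα k h.1 h.2
    · simp only [hβ, if_neg h]
      exact le_rfl
  have h2 := prod_ge_aux G hG B hB h1 (fun j hj => by
    have h : 1 ≤ j + 1 ∧ j + 1 + 1 ≤ m + 1 := ⟨by omega, by omega⟩
    simp only [hβ, if_pos h]
    exact hFV _ h.1 h.2)
  rw [mu_prod] at h2
  have h3 : ∏ i ∈ Finset.Ico 1 (m + 1), β i = ∏ i ∈ Finset.Ico 1 (m + 1), α i := by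
    apply Finset.prod_congr rfl
    intro k hk
    have h := Finset.mem_Ico.1 hk
    have h' : 1 ≤ k ∧ k + 1 ≤ m + 1 := ⟨h.1, by omega⟩
    simp only [hβ, if_pos h']
  rw [h3] at h2
  push_cast
  linarith

end Pool.Agent.N355.FP
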